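import Pool.Agent.Helper872.RN.Sep
import Pool.Agent.Helper872.RN.UnitInt
import Pool.Agent.Helper292.ForceCH
import Pool.Agent.Results.MP_8b9ec4_lc.TwoPieces

set_option autoImplicit false

/-!
# MP_8b9ec4_lc, Q2: whether a Polish group splits in two naively Haar null sets is independent of ZFC

Part (A): over every ground model there is a ccc notion of forcing (the measure algebra adding
`|K|⁺` random reals) all of whose conditions force the sentence `PhiFor K`, which says that
`non(N) ≤ |K| < cov(N)`. Part (B), in ZFC: if `PhiFor K` holds for some `K`, then no Polish group is the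
union of two naively Haar null sets. Part (C): over every ground model some notion of forcing forces
the continuum hypothesis and preserves `ω₁`. Part (D), in ZFC: the continuum hypothesis implies that
every Polish group with uncountable center (in particular every uncountable abelian Polish group, such
as `ℝ`) splits in two naively Haar null sets. So the answer to Q2 is negative in some forcing
extension, and for each group as in (D) it is not decided by ZFC.
-/

namespace Pool.Agent.Results.MP_8b9ec4_lc.TwoPiecesIndependent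

open Cardinal Set MeasureTheory
open Pool.Agent.R608.PerfectSidon Pool.Agent.R608.NaiveHaar
open Pool.Agent.V11242.RN (PhiFor PhiHolds)
open Pool.Agent.Helper872.RN (exists_not_null' exists_not_covered' exists_forcing_sep)
open Pool.Agent.Helper292.ForceCH (OmegaOnePreserved CHHolds DiamondHolds)

theorem lt_of {K : Type} (h : PhiFor K) : nonN < covN := by
  obtain ⟨Y, hY, hY0⟩ := exists_not_null' h
  have h1 : nonN ≤ #K := (csInf_le' ⟨Y, rfl, hY0⟩ : nonN ≤ #Y).trans hY
  refine h1.trans_lt ?_
  have hne : {c : Cardinal.{0} | ∃ F : Set (Set unitInterval), #F = c ∧ (∀ N ∈ F, volume N = 0) ∧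
      ⋃₀ F = Set.univ}.Nonempty := by
    refine ⟨_, Set.range fun x : unitInterval => ({x} : Set unitInterval), rfl, ?_, ?_⟩
    · rintro _ ⟨x, rfl⟩
      exact measure_singleton x
    · exact Set.eq_univ_of_forall fun x => ⟨{x}, ⟨x, rfl⟩, rfl⟩
  obtain ⟨F, h2, h3, h4⟩ := csInf_mem hne
  rw [covN, ← h2]
  by_contra hlt
  obtain ⟨x, hx⟩ := exists_not_covered' h h3 (not_lt.1 hlt)
  have h5 : x ∈ ⋃₀ F := by rw [h4]; exact Set.mem_univ x
  obtain ⟨C, hC, hxC⟩ := h5
  exact hx C hC hxC

theorem result :
    (∃ (K P : Type) (_ : Preorder P), Nonempty P ∧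
      (∀ A : Set P, (∀ p ∈ A, ∀ q ∈ A, p ≠ q → ¬ ∃ r, r ≤ p ∧ r ≤ q) → A.Countable) ∧
      ∀ p : P, p ∈ PhiHolds P K) ∧
    (∀ K : Type, PhiFor K → ∀ (G : Type) [Group G] [TopologicalSpace G] [IsTopologicalGroup G]
      [PolishSpace G] [MeasurableSpace G] [BorelSpace G],
        ¬ ∃ S : Set G, NaivelyHaarNull S ∧ NaivelyHaarNull Sᶜ) ∧
    (∃ (P : Type) (_ : Preorder P), Nonempty P ∧ ∀ p : P,
      p ∈ OmegaOnePreserved P ∧ p ∈ CHHolds P) ∧
    ((𝔠 : Cardinal.{0}) = ℵ₁ → ∀ (G : Type) [Group G] [TopologicalSpace G]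
      [IsTopologicalGroup G] [PolishSpace G] [MeasurableSpace G] [BorelSpace G],
        ¬ (Subgroup.center G : Set G).Countable →
          ∃ S : Set G, NaivelyHaarNull S ∧ NaivelyHaarNull Sᶜ) := by
  refine ⟨?_, fun K h => TwoPieces.result.1 (lt_of h), ?_, fun CH => TwoPieces.result.2 ?_⟩
  · obtain ⟨K, Y, P, hP, h1, h2, h3⟩ := exists_forcing_sep
    exact ⟨K, P, hP, h1, h2, fun p => (h3 p).1⟩
  · obtain ⟨P, hP, hne, h⟩ := Pool.Agent.Helper292.ForceCH.exists_forcing
    exact ⟨P, hP, hne, fun p => ⟨(h p).1, (h p).2.2⟩⟩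
  · refine le_antisymm ?_ ?_
    · have h1 : nonN ≤ #(univ : Set unitInterval) := csInf_le' ⟨univ, rfl, by simp⟩
      refine h1.trans ((mk_subtype_le _).trans ?_)
      exact (mk_set_le _).trans_eq Cardinal.mk_real
    · rw [CH]
      have hne : {κ : Cardinal.{0} | ∃ S : Set unitInterval, #S = κ ∧ volume S ≠ 0}.Nonempty :=
        ⟨_, univ, rfl, by simp⟩
      obtain ⟨S, h2, h3⟩ := csInf_mem hne
      change ℵ₁ ≤ sInf _
      rw [← h2]
      by_contra hlt
      have h4 : #S ≤ ℵ₀ := by
        rw [← Order.lt_succ_iff, succ_aleph0]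
        exact not_le.1 hlt
      exact h3 ((mk_le_aleph0_iff.1 h4 : Countable S) |>.to_set.measure_zero volume)

end Pool.Agent.Results.MP_8b9ec4_lc.TwoPiecesIndependent
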